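import Pool.Agent.Helper58.AM.Sheet

set_option autoImplicit false

open Finset

namespace Pool.Agent.Helper58.AM

theorem st_HST (hCNT : ST_CNT) (hCUT : ST_CUT) : ST_HST := by
  classical
  intro M V _ _ _ _ _ G _ c a b hab hba hdeg
  obtain ⟨X, hX⟩ := hCUT V G
  obtain ⟨N, hN⟩ : ∃ N : V → Finset V, ∀ v, N v =
      (G.neighborFinset v).filter (fun u => ¬ (u ∈ X ↔ v ∈ X)) := ⟨_, fun _ => rfl⟩
  have hmem : ∀ u v, v ∈ N u ↔ G.Adj u v ∧ ¬ (v ∈ X ↔ u ∈ X) := by
    intro u v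
    rw [hN, Finset.mem_filter, SimpleGraph.mem_neighborFinset]
  have key := hCNT M V N (fun u v => c s(u, v)) a b hab hba ?_ ?_ ?_
  · obtain ⟨u, v, huv, A, hA, B, hB, hAc, hBc, hs⟩ := key
    have huv' := (hmem u v).1 huv
    have hsub : ∀ w, N w ⊆ G.neighborFinset w := by
      intro w x hx
      rw [SimpleGraph.mem_neighborFinset]
      exact ((hmem w x).1 hx).1
    refine ⟨u, v, huv'.1, A, fun x hx => ?_, B, fun x hx => ?_, hAc, hBc, ?_, hs⟩
    · have h1 := Finset.mem_erase.1 (hA hx)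
      exact Finset.mem_erase.2 ⟨h1.1, hsub u h1.2⟩
    · have h1 := Finset.mem_erase.1 (hB hx)
      exact Finset.mem_erase.2 ⟨h1.1, hsub v h1.2⟩
    · rw [Finset.disjoint_left]
      intro x hxA hxB
      have h1 := ((hmem u x).1 (Finset.mem_erase.1 (hA hxA)).2).2
      have h2 := ((hmem v x).1 (Finset.mem_erase.1 (hB hxB)).2).2
      have h3 := huv'.2
      by_cases hx : x ∈ X <;> by_cases hu : u ∈ X <;> by_cases hv : v ∈ X <;>
        simp [hx, hu, hv] at h1 h2 h3
  · intro u v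
    rw [hmem, hmem, SimpleGraph.adj_comm]
    constructor
    · rintro ⟨h1, h2⟩
      exact ⟨h1, fun h => h2 h.symm⟩
    · rintro ⟨h1, h2⟩
      exact ⟨h1, fun h => h2 h.symm⟩
  · intro u v
    show c s(u, v) = c s(v, u)
    rw [Sym2.eq_swap]
  · intro v
    have h1 := hX v
    have h2 := hdeg v
    rw [hN]
    omega

end Pool.Agent.Helper58.AM
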