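import Pool.Agent.Helper58.AM.Sheet

set_option autoImplicit false

open Finset

namespace Pool.Agent.Helper58.AM

theorem st_POP (hFIL : ST_FIL) : ST_POP := by
  intro M V _ _ _ _ g b E hE
  have hM : 0 < Fintype.card M := Fintype.card_pos
  obtain ⟨κ, -, hκ⟩ := Finset.exists_max_image (Finset.univ : Finset M)
    (fun x => (E.filter (fun w => g w = x)).card) ⟨0, Finset.mem_univ _⟩
  have hEpos : 0 < E.card := by omega
  obtain ⟨e, he⟩ := Finset.card_pos.1 hEpos
  have hκpos : 0 < (E.filter (fun w => g w = κ)).card := by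
    have h1 := hκ (g e) (Finset.mem_univ _)
    have h2 : 0 < (E.filter (fun w => g w = g e)).card :=
      Finset.card_pos.2 ⟨e, Finset.mem_filter.2 ⟨he, rfl⟩⟩
    exact lt_of_lt_of_le h2 h1
  obtain ⟨v, hv⟩ := Finset.card_pos.1 hκpos
  have hv' := Finset.mem_filter.1 hv
  have hsum := hFIL M V (fun w => g w - κ) b (E.filter (fun w => g w = κ)).card (E.erase v) ?_ ?_ ?_
  · obtain ⟨B, hB, hBc, hBs⟩ := hsum
    refine ⟨v, hv'.1, B, hB, hBc, ?_⟩
    rw [Finset.sum_sub_distrib, Finset.sum_const, hBc, sub_eq_zero] at hBs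
    rw [hBs, hv'.2]
  · intro x
    have h1 := hκ (x + κ) (Finset.mem_univ _)
    refine le_trans (Finset.card_le_card ?_) h1
    intro w hw
    rw [Finset.mem_filter, Finset.mem_erase] at hw
    rw [Finset.mem_filter]
    exact ⟨hw.1.2, by rw [← hw.2]; abel⟩
  · have h1 : ((E.filter (fun w => g w = κ)).erase v).card + 1 =
        (E.filter (fun w => g w = κ)).card := Finset.card_erase_add_one hv
    rw [← h1]
    refine Nat.add_le_add_right (Finset.card_le_card ?_) 1
    intro w hw
    rw [Finset.mem_erase, Finset.mem_filter] at hw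
    rw [Finset.mem_filter, Finset.mem_erase]
    exact ⟨⟨hw.1, hw.2.1⟩, by rw [hw.2.2, sub_self]⟩
  · have h1 : (E.erase v).card + 1 = E.card := Finset.card_erase_add_one hv'.1
    omega

end Pool.Agent.Helper58.AM
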