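import Pool.Agent.Helper40.AM.SCH
import Pool.Agent.Helper10.AM.BLK
import Pool.Agent.Helper87.AM.FIL
import Pool.Agent.Helper58.AM.POP
import Pool.Agent.Helper55.AM.PRC
import Pool.Agent.Helper98.AM.STB
import Pool.Agent.Helper71.AM.STK
import Pool.Agent.Helper55.AM.STR
import Pool.Agent.Helper97.AM.GRW
import Pool.Agent.Helper61.AM.TYP
import Pool.Agent.Helper85.AM.CNT
import Pool.Agent.Helper9.AM.CUT
import Pool.Agent.Helper58.AM.HST
import Pool.Agent.Helper58.AM.TRE

/-! MP_98699e_co: double stars, every abelian group of order m; assembly of the sheet AM. -/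

set_option autoImplicit false

namespace Pool.Agent.Helper58.AM

theorem all_STK : ST_STK := Pool.Agent.Helper71.AM.st_STK st_PRC st_STB

theorem all_TYP : ST_TYP := st_TYP (st_STR all_STK) (st_GRW st_PRC st_STB)

theorem all_POP : ST_POP := st_POP (st_FIL (st_BLK st_SCH))

theorem all_HST : ST_HST := st_HST (st_CNT all_TYP all_POP) st_CUT

theorem all_TRE : ST_TRE := st_TRE all_HST

end Pool.Agent.Helper58.AM
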