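import Mathlib

/-! # Sheet AM (MP_98699e_co): double stars, every modulus (every abelian group of order `m`) -/

set_option autoImplicit false

open Finset

namespace Pool.Agent.Helper58.AM

/-- a double star with leaf sets `A` (at `u`) and `B` (at `v`) and sum zero -/
def Cp {V M : Type} [Fintype V] [DecidableEq V] [AddCommGroup M] (G : SimpleGraph V)
    [DecidableRel G.Adj] (c : Sym2 V → M) (a b : ℕ) : Prop :=
  ∃ u v : V, G.Adj u v ∧ ∃ A ⊆ (G.neighborFinset u).erase v,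
    ∃ B ⊆ (G.neighborFinset v).erase u, A.card = a ∧ B.card = b ∧ Disjoint A B ∧
      c s(u, v) + ∑ x ∈ A, c s(u, x) + ∑ x ∈ B, c s(v, x) = 0

/-- Row SCH (Scherk). Induction on `Q.card`. `Q = {0}` clear. Else take `q0 ≠ 0` in `Q`; some
`p1 ∈ P` has `p1 + q0 ∉ P` (otherwise `P + q0 = P ∋ 0`, so `p + q0 = 0` with `p ∈ P`). Put
`Q1 = {q ∈ Q | p1 + q ∉ P}` (contains `q0`, not `0`), `P' = P ∪ (p1 + Q1)`, `Q' = Q \ Q1`:
`P' + Q' ⊆ P + Q` as `p1 + q' ∈ P`; the hypothesis holds for `P', Q'`. -/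
def ST_SCH : Prop := ∀ (M : Type) [AddCommGroup M] [DecidableEq M] (P Q : Finset M),
  0 ∈ P → 0 ∈ Q → (∀ p ∈ P, ∀ q ∈ Q, p + q = 0 → q = 0) →
  P.card + Q.card ≤ (Finset.image₂ (fun x y => x + y) P Q).card + 1

/-- Row BLK (dep SCH). By induction on `h`, for all `W`: either such a `Z` exists or there is
`S : Finset M` with `0 ∈ S`, `W.card + 1 ≤ S.card`, each `s ∈ S` equal to `∑ z ∈ Z, f z` for some
`Z ⊆ W` with `Z.card ≤ h`. Step: `W'` = one element of each nonempty fibre of `f` on `W`; the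
fibres of `W \ W'` have at most `h - 1` elements; `S` from the induction for `W \ W'`,
`P = insert 0 (W'.image f)` of card `W'.card + 1`, use SCH for `S, P`: if `s + f w = 0` then
`Z ∪ {w}` is a block. Finally `S.card ≤ card M`. -/
def ST_BLK : Prop := ∀ (M V : Type) [AddCommGroup M] [Fintype M] [DecidableEq M] [DecidableEq V]
  (f : V → M) (h : ℕ) (W : Finset V), (∀ w ∈ W, f w ≠ 0) →
  (∀ x : M, (W.filter (fun w => f w = x)).card ≤ h) → Fintype.card M ≤ W.card →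
  ∃ Z ⊆ W, Z.Nonempty ∧ Z.card ≤ h ∧ ∑ z ∈ Z, f z = 0

/-- Row FIL (dep BLK). `z` = number of zeros. If `b ≤ z` take zeros. Else take `T ⊆ W0 = nonzero
part` with `∑ = 0`, `T.card ≤ b`, `T.card` maximal. If `T.card + z < b` then `W0 \ T` has at least
`card M` elements, a block `Z` of size `≤ h ≤ z + 1` makes `T ∪ Z` larger. So `b ≤ T.card + z`:
add `b - T.card` zeros. -/
def ST_FIL : Prop := ∀ (M V : Type) [AddCommGroup M] [Fintype M] [DecidableEq M] [DecidableEq V]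
  (f : V → M) (b h : ℕ) (W : Finset V), (∀ x : M, (W.filter (fun w => f w = x)).card ≤ h) →
  h ≤ (W.filter (fun w => f w = 0)).card + 1 → Fintype.card M + b ≤ W.card + 1 →
  ∃ B ⊆ W, B.card = b ∧ ∑ z ∈ B, f z = 0

/-- Row POP (dep FIL). `κ` a colour with a largest fibre `h` in `E`, `v` in it; FIL for
`W = E.erase v`, `f = g - κ`. -/
def ST_POP : Prop := ∀ (M V : Type) [AddCommGroup M] [Fintype M] [DecidableEq M] [DecidableEq V]
  (g : V → M) (b : ℕ) (E : Finset V), Fintype.card M + b ≤ E.card →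
  ∃ v ∈ E, ∃ B ⊆ E.erase v, B.card = b ∧ ∑ z ∈ B, g z = b • g v

/-- Row PRC. Take the largest `k ≤ a` for which `R, S` with the first five properties exist
(`k = 0`: `R = ∅`, `S = {0}`). If `k < a` and `p ≠ q` are in `U \ R`: `R ∪ {p, q}` and
`S' = (g p + S) ∪ (g q + S)` have these properties for `k + 1` unless `S'.card ≤ k + 1`; so
`S'.card = S.card = k + 1` and `g p + S = g q + S`. -/
def ST_PRC : Prop := ∀ (M V : Type) [AddCommGroup M] [Fintype M] [DecidableEq M] [DecidableEq V]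
  (g : V → M) (U : Finset V) (a : ℕ), ∃ (k : ℕ) (R : Finset V) (S : Finset M),
  k ≤ a ∧ R ⊆ U ∧ R.card ≤ 2 * k ∧ k + 1 ≤ S.card ∧
  (∀ s ∈ S, ∃ L ⊆ R, L.card = k ∧ ∑ z ∈ L, g z = s) ∧
  (k = a ∨ ((2 * a + 2 ≤ U.card → S.card = k + 1) ∧
    ∀ p ∈ U \ R, ∀ q ∈ U \ R, ∀ s ∈ S, s + (g p - g q) ∈ S))

/-- Row STB (stabilizer). `K = {x | ∀ s ∈ S, s + x ∈ S}` (a subgroup since `S` is finite). If some
`σ + x`, `x ∈ H`, is not in `S`, then `K < H` and the coset `σ + x + K` is disjoint from `S`, both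
in `σ + H`. -/
def ST_STB : Prop := ∀ (M : Type) [AddCommGroup M] [Fintype M] [DecidableEq M] (S : Finset M)
  (H : AddSubgroup M) (σ : M), S.Nonempty → (∀ s ∈ S, s - σ ∈ H) →
  ∃ K : AddSubgroup M, (∀ x : M, (∀ s ∈ S, s + x ∈ S) → x ∈ K) ∧
    ((∀ x ∈ H, σ + x ∈ S) ∨ (K < H ∧ S.card + Nat.card K ≤ Nat.card H))

/-- Row STK (deps PRC, STB). PRC with `a = Nat.card H` (then `k = a` is impossible since
`S ⊆ k • γ + H`), STB with `σ = k • γ`. -/
def ST_STK : Prop := ∀ (M V : Type) [AddCommGroup M] [Fintype M] [DecidableEq M] [DecidableEq V]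
  (g : V → M) (U : Finset V) (H : AddSubgroup M) (γ : M), (∀ u ∈ U, g u - γ ∈ H) →
  (∃ (k : ℕ) (R : Finset V), R ⊆ U ∧ R.card ≤ 2 * k ∧ k + 1 ≤ Nat.card H ∧
    ∀ x ∈ H, ∃ L ⊆ R, L.card = k ∧ ∑ z ∈ L, g z = k • γ + x) ∨
  (∃ (k : ℕ) (R : Finset V) (K : AddSubgroup M) (δ : M), R ⊆ U ∧ R.card ≤ 2 * k ∧ K < H ∧
    k + Nat.card K + 1 ≤ Nat.card H ∧ ∀ u ∈ U \ R, g u - δ ∈ K)

open scoped Classical in
/-- Row STR (dep STK). Strong induction on `Nat.card H0`: first case of STK: `H = H0`. Second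
case: the statement for `U \ R`, `K`, `δ`; the exceptions are those of `U \ R` and `R`. -/
def ST_STR : Prop := ∀ (M V : Type) [AddCommGroup M] [Fintype M] (g : V → M) (U : Finset V)
  (H0 : AddSubgroup M) (γ0 : M), (∀ u ∈ U, g u - γ0 ∈ H0) →
  ∃ (H : AddSubgroup M) (γ : M) (k : ℕ) (R : Finset V), H ≤ H0 ∧ R ⊆ U ∧ R.card ≤ 2 * k ∧
    k + 1 ≤ Nat.card H ∧
    (U.filter (fun u => g u - γ ∉ H)).card + 2 * Nat.card H ≤ 2 * Nat.card H0 ∧
    ∀ x ∈ H, ∃ L ⊆ R, L.card = k ∧ ∑ z ∈ L, g z = k • γ + x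

/-- Row GRW (deps PRC, STB). PRC; if `k < a` then `S.card = k + 1 < card M`, STB with `H = ⊤`,
`σ = 0` gives `K`; `δ = g p` for some `p ∈ U \ R`. -/
def ST_GRW : Prop := ∀ (M V : Type) [AddCommGroup M] [Fintype M] [DecidableEq V]
  (g : V → M) (U : Finset V) (a : ℕ), a + 1 ≤ Fintype.card M → 2 * a + 2 ≤ U.card →
  (∃ (R : Finset V) (S : Finset M), R ⊆ U ∧ R.card ≤ 2 * a ∧ a + 1 ≤ S.card ∧
    ∀ s ∈ S, ∃ L ⊆ R, L.card = a ∧ ∑ z ∈ L, g z = s) ∨
  (∃ (k : ℕ) (R : Finset V) (K : AddSubgroup M) (δ : M), R ⊆ U ∧ R.card ≤ 2 * k ∧ K < ⊤ ∧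
    k + Nat.card K + 1 ≤ Fintype.card M ∧ ∀ u ∈ U \ R, g u - δ ∈ K)

/-- Row TYP (deps STR, GRW). GRW for `a` and for `b`: both growths: second case, `Z = Ra ∪ Rb`.
Otherwise `k, R, K, δ`; STR for `U \ R`, `K`, `δ` gives `H, γ, k', R'`; `Z = R ∪ R' ∪ exceptions`,
`Z.card ≤ 2 k + 2 k' + 2 |K| - 2 |H| ≤ 2 m - 4`; `k' + 1 ≤ |H| ≤ |K| ≤ m / 2`, so `k' ≤ a`. For
`y ∈ U \ Z`: `L = L1 ∪ L2`, `L2 ⊆ U \ (Z ∪ {y})` with `a - k'` elements (all in the class of `γ`),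
`L1 ⊆ R'` with the right `x ∈ H`; `m • γ = 0`. -/
def ST_TYP : Prop := ∀ (M V : Type) [AddCommGroup M] [Fintype M] [DecidableEq V]
  (g : V → M) (U : Finset V) (a b : ℕ), a + b + 1 = Fintype.card M → b ≤ a →
  4 * Fintype.card M ≤ U.card → ∃ Z ⊆ U, Z.card + 2 ≤ 2 * Fintype.card M ∧
  ((∀ y ∈ U \ Z, ∃ L ⊆ U.erase y, L.card = a ∧ ∑ z ∈ L, g z + (b + 1) • g y = 0) ∨
    ((∃ S : Finset M, a + 1 ≤ S.card ∧ ∀ s ∈ S, ∃ L ⊆ Z, L.card = a ∧ ∑ z ∈ L, g z = s) ∧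
      ∃ S : Finset M, b + 1 ≤ S.card ∧ ∀ s ∈ S, ∃ L ⊆ Z, L.card = b ∧ ∑ z ∈ L, g z = s))

/-- Row CNT (deps TYP, POP). TYP for `U = N v`, `g = c v`: `Z v`; `v` is of type I in the first
case. `E y = {v ∈ N y | v of type I, y ∉ Z v}`. If `m + b ≤ (E y).card` for some `y`: POP with
`g = c y` gives `v, B`; `u := v`, `v := y`, `A = L` from TYP at `v`. If `y ∈ N v`, both of type II,
`y ∉ Z v`, `v ∉ Z y`: pigeonhole for the two `S` (`a + 1 + b + 1 > m`). Otherwise the pairs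
`(v, y)`, `y ∈ N v`, number at least `7 m n` (`n = card V`), satisfy `v ∈ E y` or `y ∈ E v` (at
most `n (m + b - 1)` each) or `y ∈ Z v` or `v ∈ Z y` (at most `n (2 m - 2)` each):
`6 m + 2 b - 6 < 7 m`. -/
def ST_CNT : Prop := ∀ (M V : Type) [AddCommGroup M] [Fintype M] [Fintype V] [DecidableEq V]
  [Nonempty V] (N : V → Finset V) (c : V → V → M) (a b : ℕ), a + b + 1 = Fintype.card M → b ≤ a →
  (∀ u v, v ∈ N u ↔ u ∈ N v) → (∀ u v, c u v = c v u) → (∀ v, 7 * Fintype.card M ≤ (N v).card) →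
  ∃ u v, v ∈ N u ∧ ∃ A ⊆ (N u).erase v, ∃ B ⊆ (N v).erase u, A.card = a ∧ B.card = b ∧
    c u v + ∑ x ∈ A, c u x + ∑ x ∈ B, c v x = 0

/-- Row CUT (maximal cut). `X` with the largest number of edges (or pairs) between `X` and its
complement; moving one vertex. -/
def ST_CUT : Prop := ∀ (V : Type) [Fintype V] [DecidableEq V] (G : SimpleGraph V)
  [DecidableRel G.Adj], ∃ X : Finset V, ∀ v : V,
  G.degree v ≤ 2 * ((G.neighborFinset v).filter (fun u => ¬ (u ∈ X ↔ v ∈ X))).card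

/-- Row HST (deps CNT, CUT). CUT, CNT with `N v` = neighbours on the other side; `A` and `B` are
on different sides. -/
def ST_HST : Prop := ∀ (M V : Type) [AddCommGroup M] [Fintype M] [Fintype V] [DecidableEq V]
  [Nonempty V] (G : SimpleGraph V) [DecidableRel G.Adj] (c : Sym2 V → M) (a b : ℕ),
  a + b + 1 = Fintype.card M → b ≤ a → (∀ v, 14 * Fintype.card M ≤ G.degree v) → Cp G c a b

/-- Row TRE (dep HST; helper58). -/
def ST_TRE : Prop := ∀ (m : ℕ) (M : Type) [AddCommGroup M] [Fintype M], Fintype.card M = m →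
  ∀ (T : SimpleGraph (Fin (m + 1))) [DecidableRel T.Adj], T.IsTree →
    (∃ x y : Fin (m + 1), T.Adj x y ∧ ∀ z, z ≠ x → z ≠ y → T.Adj x z ∨ T.Adj y z) →
  ∀ (V : Type) [Fintype V] [Nonempty V] (G : SimpleGraph V) [DecidableRel G.Adj],
    (∀ v : V, 14 * m ≤ G.degree v) →
    ∀ c : Sym2 V → M,
      ∃ f : Fin (m + 1) → V, Function.Injective f ∧
        (∀ a b : Fin (m + 1), T.Adj a b → G.Adj (f a) (f b)) ∧
        ∑ e ∈ T.edgeFinset, c (Sym2.map f e) = 0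

end Pool.Agent.Helper58.AM
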